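import Mathlib
import Pool.Agent.H39R3.Tor.Pow
import Pool.Agent.H39R3.Tor.SUnit

/-!
# Almost all ramified covers of tori have no integral points

Let `K` be an abelian number field, `S` a finite set of primes of `K` and `n ≥ 0`.  Among the covers
`w ^ m = F_c(x)` of the torus `G_m ^ n`, `m ≥ 2`, where `F_c = ∑_{s ∈ A} c_s x ^ s` runs through the
Laurent polynomials with support in a fixed finite set `A` and with integer coefficients in
`[-H, H]`, all but `O(H ^ (#A - 1/5 + ε))` of the `(2H+1) ^ #A` have no `S`-integral point, and more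
generally no point `(x, w)` with `w` in `K` and `x` in a given finitely generated subgroup of
`(Kˣ) ^ n`.  The same holds for the covers `w ^ d + F_1(x) w ^ (d-1) + ⋯ + F_d(x) = 0` of degree
`d ≥ 2`.
-/

namespace Pool.Agent.Results.MP_26d9ad_nt.CoversOfTori

open IsDedekindDomain NumberField

/-- the value at `x` of the Laurent polynomial `∑_{s ∈ A} c_s x ^ s` -/
def F {K : Type} [Field K] {n : ℕ} (A : Finset (Fin n → ℤ)) (c : A → ℤ) (x : Fin n → Kˣ) : K :=
  ∑ s : A, (c s : K) * ∏ k, (x k : K) ^ s.1 k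

/-- For all `m ≥ 2` and all supports `A`, all but `O(H ^ (#A - 1/5 + ε))` of the covers
`w ^ m = F_c(x)` with coefficients in `[-H, H]` have no point with `x ∈ X` and `w ∈ K`. -/
def CyclicCovers (K : Type) [Field K] {n : ℕ} (X : Set (Fin n → Kˣ)) : Prop :=
  ∀ m : ℕ, 2 ≤ m → ∀ A : Finset (Fin n → ℤ), A.Nonempty → ∀ ε : ℝ, 0 < ε → ∃ C : ℝ,
    ∀ H : ℕ, 1 ≤ H →
      (Nat.card {c : A → ℤ // (∀ s, |c s| ≤ H) ∧ ∃ x ∈ X, ∃ w : K, w ^ m = F A c x} : ℝ) ≤
        C * (H : ℝ) ^ ((A.card : ℝ) - 1 / 5 + ε)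

/-- For all `d ≥ 2` and all supports `A_1, …, A_d`, all but `O(H ^ (#A_1 + ⋯ + #A_d - 1/5 + ε))` of
the covers `w ^ d + F_1(x) w ^ (d-1) + ⋯ + F_d(x) = 0` with coefficients in `[-H, H]` have no point
with `x ∈ X` and `w ∈ K`. -/
def AllCovers (K : Type) [Field K] {n : ℕ} (X : Set (Fin n → Kˣ)) : Prop :=
  ∀ d : ℕ, 2 ≤ d → ∀ A : Fin d → Finset (Fin n → ℤ), (∀ i, (A i).Nonempty) → ∀ ε : ℝ, 0 < ε →
    ∃ C : ℝ, ∀ H : ℕ, 1 ≤ H →
      (Nat.card {c : (Σ i : Fin d, A i) → ℤ // (∀ s, |c s| ≤ H) ∧ ∃ x ∈ X, ∃ w : K,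
        w ^ d + ∑ i : Fin d, F (A i) (fun s => c ⟨i, s⟩) x * w ^ (d - 1 - i.1) = 0} : ℝ) ≤
        C * (H : ℝ) ^ ((∑ i, ((A i).card : ℝ)) - 1 / 5 + ε)

theorem F_eq {K : Type} [Field K] {n : ℕ} (A : Finset (Fin n → ℤ)) (c : A → ℤ)
    (x : Fin n → Kˣ) : F A c x = Pool.Agent.H39R3.Tor.lau A c x := by
  unfold F Pool.Agent.H39R3.Tor.lau Pool.Agent.H39R3.Tor.mono
  refine Finset.sum_congr rfl fun s _ => ?_
  rw [Units.coe_prod]
  congr 1
  exact Finset.prod_congr rfl fun k _ => by rw [Units.val_zpow_eq_zpow_val]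

/-- (1) the covers have no points over a given finitely generated group `Γ`, for almost all `c`;
(2) in particular they have no `S`-integral points, for every finite set `S` of primes of `K`.
Here `K` is any number field contained in a cyclotomic field. -/
theorem result :
    (∀ (K : Type) [Field K] [NumberField K] (M : ℕ), 0 < M →
      Nonempty (K →+* CyclotomicField M ℚ) → ∀ (n : ℕ) (Γ : Subgroup (Fin n → Kˣ)), Γ.FG →
        CyclicCovers K (Γ : Set (Fin n → Kˣ)) ∧ AllCovers K (Γ : Set (Fin n → Kˣ))) ∧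
    (∀ (K : Type) [Field K] [NumberField K] (M : ℕ), 0 < M →
      Nonempty (K →+* CyclotomicField M ℚ) → ∀ (n : ℕ) (S : Set (HeightOneSpectrum (𝓞 K))),
        S.Finite → CyclicCovers K {x : Fin n → Kˣ | ∀ k, x k ∈ S.unit K} ∧
          AllCovers K {x : Fin n → Kˣ | ∀ k, x k ∈ S.unit K}) := by
  have h1 : ∀ (K : Type) [Field K] [NumberField K] (M : ℕ), 0 < M →
      Nonempty (K →+* CyclotomicField M ℚ) → ∀ (n : ℕ) (Γ : Subgroup (Fin n → Kˣ)), Γ.FG →
        CyclicCovers K (Γ : Set (Fin n → Kˣ)) ∧ AllCovers K (Γ : Set (Fin n → Kˣ)) := by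
    intro K _ _ M hM hK n Γ hΓ
    constructor
    · intro m hm A hA ε hε
      simp only [F_eq]
      exact Pool.Agent.H39R3.Tor.mainC K M hM hK n m hm A hA Γ hΓ ε hε
    · intro d hd A hA ε hε
      simp only [F_eq]
      exact Pool.Agent.H39R3.Tor.mainT K M hM hK n d hd A hA Γ hΓ ε hε
  refine ⟨h1, fun K _ _ M hM hK n S hS => ?_⟩
  have h2 := h1 K M hM hK n _ (Pool.Agent.H39R3.Tor.sPoints_fg K S hS n)
  have h3 : ((Pool.Agent.H39R3.Tor.sPoints K S n : Subgroup (Fin n → Kˣ)) : Set (Fin n → Kˣ)) =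
      {x : Fin n → Kˣ | ∀ k, x k ∈ S.unit K} := by
    ext x
    simp [Pool.Agent.H39R3.Tor.sPoints, Subgroup.mem_pi]
  rw [h3] at h2
  exact h2

end Pool.Agent.Results.MP_26d9ad_nt.CoversOfTori
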