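import Mathlib
import Pool.Agent.H533R3.SL.Gm

/-!
# Sparse integral points of affine varieties without punctured lines

Let `U` be an affine variety over a number field `k`, the part `x₀ ≠ 0` of a projective variety,
which contains no image of a nonconstant map from the punctured line `G_m` over finite extensions
of `k`.  Then, for every `r` and `B`, and uniformly in the finite extension `K` of `k` and in the
base `b ≥ 2`, the integral points of `U` over `𝓞 K [1 / b]` which are sums of `r` terms
`b ^ m • v`, `m ∈ ℤ`, with `v` an integral vector of house at most `B`, lie in an explicit finite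
set which does not depend on `b`.
-/

namespace Pool.Agent.Results.MP_26d9ad_nt.SparseIntegralPoints

open NumberField Pool.Agent.H458.Sp Pool.Agent.H533R3.SL

/-- the explicit bound for the house of the coordinates -/
noncomputable def bound (d : ℕ) (A : ℝ) (r : ℕ) (B : ℝ) : ℝ :=
  Real.exp ((8 * d * (6 + 8 * d + 4 * Real.log A)) ^ (r + 1) *
    (1 + Real.log B + Real.log (A * ((r + 1 : ℕ) * B) ^ d)))

/-- Let the projective variety be given by the finite set `FF` of homogeneous forms with
coefficients in `𝓞 k`, degrees at most `d` and coefficients of total house at most `A`, and let the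
affine part `x₀ ≠ 0` contain no nonconstant image of the punctured line over any finite extension
of `k`.  Then for all finite extensions `K` of `k` the set of all points of the affine part
over `K` which are `r`-sparse in some base `b ≥ 2` with digits of house at most `B` is finite;
all of its elements have a common denominator and numerators in `𝓞 K` of house at most
`bound d A r B`, a number which does not depend on `K` nor on `n`. -/
theorem result (k : Type) [Field k] [NumberField k] (n : ℕ)
    (FF : Finset (MvPolynomial (Fin (n + 1)) (𝓞 k))) (d : ℕ) (hd : 1 ≤ d) (A : ℝ) (hA : 1 ≤ A)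
    (hFF : ∀ F ∈ FF, (∃ e, e ≤ d ∧ F.IsHomogeneous e) ∧ nrm F ≤ A)
    (hyp : NoGm FF) (r : ℕ) (B : ℝ) (hB : 1 ≤ B) :
    ∀ (K : Type) [Field K] [NumberField K] [Algebra k K],
      (affPoints FF r B K).Finite ∧ affPoints FF r B K ⊆ smallAff K n (bound d A r B) := by
  intro K _ _ _
  have h := gm_small k n FF d hd A hA hFF hyp r B hB K
  exact ⟨(smallAff_finite K n _).subset h, h⟩

end Pool.Agent.Results.MP_26d9ad_nt.SparseIntegralPoints
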