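import Mathlib
import Pool.Agent.H533R3.SL.UGm

/-!
# A uniform bound for the number of sparse integral points

Let `U` be an affine variety over a number field `K`, the part `x₀ ≠ 0` of a projective variety cut
out in projective `n`-space by `N` forms of degree at most `d` with arbitrary coefficients in
`𝓞 K`, and assume that `U` contains no image of a nonconstant map from the punctured line over
`K`.  Then for every nonzero nonunit `b` of `𝓞 K`, every `r` and every finite set `V` of digits, at
most `#V ^ (n r) ((((d + 1) ^ (r + 1))!) ^ 2) ^ N` integral points of `U` over `𝓞 K [1 / b]` have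
coordinates that are combinations of the same `r` powers of `b`, with exponents in `ℤ` and with
coefficients in `V`.  The bound does not depend on the coefficients of the forms, on `b` and on
`K`.
-/

namespace Pool.Agent.Results.MP_26d9ad_nt.UniformSparseCount

open NumberField MvPolynomial Pool.Agent.H533R3.SL

/-- the bound, which does not depend on the coefficients of the forms, on the base `b` and on the
number field -/
def bound (n N d r : ℕ) (c : ℕ) : ℕ :=
  c ^ (n * r) * ((Nat.factorial ((d + 1) ^ (r + 1))) ^ 2) ^ N

theorem result (K : Type) [Field K] [NumberField K] (n N : ℕ)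
    (P : Fin N → MvPolynomial (Fin (n + 1)) (𝓞 K)) (d : ℕ)
    (hP : ∀ i, ∃ e, e ≤ d ∧ (P i).IsHomogeneous e) (hyp : NoGmK P)
    (b : 𝓞 K) (hb0 : b ≠ 0) (hbu : ¬ IsUnit b) (r : ℕ) (V : Finset (𝓞 K)) :
    (sparseAffPts P b r V).encard ≤ (bound n N d r V.card : ℕ∞) :=
  card_sparseAffPts P d hP hyp b hb0 hbu r V

end Pool.Agent.Results.MP_26d9ad_nt.UniformSparseCount
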